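import Pool.Agent.Helper76.CY.Lin

/-!
# Project CY, piece CY-1a: the roots of an irreducible polynomial of degree 11
-/

namespace Pool.Agent.Helper87.CY

open Polynomial

theorem exists_roots {K M : Type*} [Field K] [CharZero K] [Field M] [Algebra K M]
    [IsAlgClosed M] (χ : Polynomial K) (hχ : Irreducible χ) (hdeg : χ.natDegree = 11) :
    ∃ μ : Fin 11 → M, Function.Injective μ ∧
      ∀ z : M, Polynomial.aeval z χ = 0 ↔ ∃ i, μ i = z := by
  classical
  have hsep : χ.Separable := hχ.separable
  have hsplit : (χ.map (algebraMap K M)).Splits := IsAlgClosed.splits _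
  have hcard : Fintype.card (χ.rootSet M) = 11 := by
    rw [Polynomial.card_rootSet_eq_natDegree hsep hsplit, hdeg]
  let e : χ.rootSet M ≃ Fin 11 := Fintype.equivFinOfCardEq hcard
  refine ⟨fun i => (e.symm i : M), ?_, ?_⟩
  · intro i j hij
    exact e.symm.injective (Subtype.ext hij)
  · intro z
    have h0 : χ ≠ 0 := hχ.ne_zero
    constructor
    · intro hz
      have hmem : z ∈ χ.rootSet M := (Polynomial.mem_rootSet_of_ne h0).2 hz
      exact ⟨e ⟨z, hmem⟩, by simp⟩
    · rintro ⟨i, rfl⟩
      exact Polynomial.aeval_eq_zero_of_mem_rootSet (e.symm i).2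

end Pool.Agent.Helper87.CY
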